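import Mathlib
import Pool.Agent.RHO.Stmts3

/-!
# MP_ca8ef3_an, stage 2, row AVS (the kernel is an average)
-/

set_option autoImplicit false

namespace Pool.Agent.RHO.H75c

open Finset Pool.Agent.RHO

theorem sg2_add (a b : ZMod 2) : sg2 (a + b) = sg2 a * sg2 b := by
  have h : ∀ c : ZMod 2, c = 0 ∨ c = 1 := by decide
  rcases h a with rfl | rfl <;> rcases h b with rfl | rfl
  · simp [sg2]
  · simp [sg2]
  · simp [sg2]
  · have h1 : (1 : ZMod 2) + 1 = 0 := by decide
    rw [h1]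
    simp [sg2]

section

variable {ι : Type} [Fintype ι] [DecidableEq ι]

theorem pr_add (τ f g : Fn ι) : pr τ (f + g) = pr τ f + pr τ g := by
  unfold pr
  rw [← Finset.sum_add_distrib]
  refine Finset.sum_congr rfl fun z _ => ?_
  rw [Pi.add_apply, mul_add]

theorem pr_mul (τ f g : Fn ι) : pr τ (f * g) = pr (τ * g) f := by
  unfold pr
  refine Finset.sum_congr rfl fun z _ => ?_
  rw [Pi.mul_apply, Pi.mul_apply]
  ring

theorem wp_mem (rmb : RMBStmt) {m k : ℕ} (q : Fin m → RM ι k) : wp q ∈ RM ι (k * m) := by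
  obtain ⟨-, hmul, -, hone, -⟩ := rmb ι
  have key : ∀ s : Finset (Fin m), (fun z : Pt ι => ∏ j ∈ s, (q j : Fn ι) z) ∈ RM ι (k * s.card) := by
    intro s
    induction s using Finset.induction_on with
    | empty =>
      have : (fun z : Pt ι => ∏ j ∈ (∅ : Finset (Fin m)), (q j : Fn ι) z) = (1 : Fn ι) := by
        funext z
        simp
      rw [this, Finset.card_empty, Nat.mul_zero]
      exact hone
    | insert a s ha ih =>
      have h1 : (fun z : Pt ι => ∏ j ∈ insert a s, (q j : Fn ι) z) =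
          (q a : Fn ι) * (fun z : Pt ι => ∏ j ∈ s, (q j : Fn ι) z) := by
        funext z
        rw [Finset.prod_insert ha, Pi.mul_apply]
      rw [h1, Finset.card_insert_of_notMem ha, Nat.mul_add, Nat.mul_one, Nat.add_comm]
      exact hmul _ _ _ _ (q a).2 ih
  have := key Finset.univ
  rw [Finset.card_univ, Fintype.card_fin] at this
  exact this

theorem sum_sg2 (k1 : ℕ) (σ : Fn ι) (h : ¬ Van σ k1) :
    ∑ p : RM ι k1, sg2 (pr σ (p : Fn ι)) = 0 := by
  unfold Van at h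
  push_neg at h
  obtain ⟨f, hf, hne⟩ := h
  have h1 : pr σ f = 1 := by
    have h : ∀ c : ZMod 2, c ≠ 0 → c = 1 := by decide
    exact h _ hne
  have h2 : ∑ p : RM ι k1, sg2 (pr σ (p : Fn ι)) =
      ∑ p : RM ι k1, sg2 (pr σ ((p + ⟨f, hf⟩ : RM ι k1) : Fn ι)) :=
    (Equiv.sum_comp (Equiv.addRight (⟨f, hf⟩ : RM ι k1)) fun p : RM ι k1 => sg2 (pr σ (p : Fn ι))).symm
  have h3 : ∀ p : RM ι k1, sg2 (pr σ ((p + ⟨f, hf⟩ : RM ι k1) : Fn ι)) = - sg2 (pr σ (p : Fn ι)) := by
    intro p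
    have h4 : ((p + ⟨f, hf⟩ : RM ι k1) : Fn ι) = (p : Fn ι) + f := rfl
    rw [h4, pr_add, sg2_add, h1]
    have h5 : sg2 1 = -1 := by
      simp [sg2]
    rw [h5]
    ring
  rw [Finset.sum_congr rfl fun p _ => h3 p, Finset.sum_neg_distrib] at h2
  linarith

open Classical in
theorem one_label (m k k1 : ℕ) (τ : Fn ι) :
    ∑ x : RM ι k1 × (Fin m → RM ι k), sg2 (pr τ ((x.1 : Fn ι) * wp x.2)) =
      Fintype.card (RM ι k1 × (Fin m → RM ι k)) * pv m k k1 τ := by
  have h1 : ∀ q : Fin m → RM ι k, ∑ p : RM ι k1, sg2 (pr τ ((p : Fn ι) * wp q)) =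
      if Van (τ * wp q) k1 then (Fintype.card (RM ι k1) : ℝ) else 0 := by
    intro q
    have h2 : ∀ p : RM ι k1, sg2 (pr τ ((p : Fn ι) * wp q)) = sg2 (pr (τ * wp q) (p : Fn ι)) := by
      intro p
      rw [pr_mul]
    rw [Finset.sum_congr rfl fun p _ => h2 p]
    split_ifs with hv
    · have h3 : ∀ p : RM ι k1, sg2 (pr (τ * wp q) (p : Fn ι)) = 1 := by
        intro p
        rw [hv _ p.2]
        simp [sg2]
      rw [Finset.sum_congr rfl fun p _ => h3 p, Finset.sum_const, Finset.card_univ, nsmul_eq_mul,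
        mul_one]
    · exact sum_sg2 k1 _ hv
  rw [Fintype.sum_prod_type_right, Finset.sum_congr rfl fun q _ => h1 q, ← Finset.sum_filter,
    Finset.sum_const, nsmul_eq_mul]
  unfold pv
  rw [Fintype.card_prod, Nat.cast_mul]
  have h5 : (Fintype.card (Fin m → RM ι k) : ℝ) ≠ 0 := by
    have : 0 < Fintype.card (Fin m → RM ι k) := Fintype.card_pos
    exact_mod_cast this.ne'
  field_simp

end

theorem avs (rmb : RMBStmt) (qdf : QDFStmt) : AVSStmt := by
  intro ι _ _ D m k k1 T T'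
  obtain ⟨hadd, -⟩ := qdf ι (k1 + k * m)
  obtain ⟨-, hmul, -⟩ := rmb ι
  have h1 : ∀ ω : Smp ι D m k k1, sgT ω T * sgT ω T' =
      ∏ i, sg2 (pr (rp ((T + T') i)) (((ω i).1 : Fn ι) * wp (ω i).2)) := by
    intro ω
    unfold sgT
    rw [← Finset.prod_mul_distrib]
    refine Finset.prod_congr rfl fun i _ => ?_
    rw [← sg2_add, Pi.add_apply, hadd]
    exact hmul _ _ _ _ (ω i).1.2 (wp_mem rmb _)
  rw [Finset.sum_congr rfl fun ω _ => h1 ω]
  have h2 := Finset.prod_univ_sum (fun _ : Fin D => (Finset.univ : Finset (RM ι k1 × (Fin m → RM ι k))))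
    (fun i x => sg2 (pr (rp ((T + T') i)) ((x.1 : Fn ι) * wp x.2)))
  rw [Fintype.piFinset_univ] at h2
  rw [← h2, Finset.prod_congr rfl fun i _ => one_label m k k1 (rp ((T + T') i)),
    Finset.prod_mul_distrib, Finset.prod_const, Finset.card_univ, Fintype.card_fin]
  unfold KT
  have h3 : Fintype.card (Smp ι D m k k1) = Fintype.card (RM ι k1 × (Fin m → RM ι k)) ^ D := by
    rw [Fintype.card_fun, Fintype.card_fin]
  rw [h3, Nat.cast_pow]

end Pool.Agent.RHO.H75c
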