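import Mathlib
import Pool.Agent.RHO.Stmts3

/-!
# MP_ca8ef3_an, stage 2, row GRA (the graph)
-/

set_option autoImplicit false

namespace Pool.Agent.RHO.H75c

open Finset Pool.Agent.RHO

theorem evl_zero {A D : ℕ} (M : Mt A D) (l : ℕ) : ∀ (m : List (Fin D) → ZMod 2) (r : ℕ)
    (u : Fin A → ZMod 2), (∀ y : List (Fin D), y.length = l → m y = 0) → evl M m r l u = 0 := by
  induction l with
  | zero =>
    intro m r u h
    rw [evl, h [] rfl, zero_smul]
  | succ l ih =>
    intro m r u h
    rw [evl]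
    refine Finset.sum_eq_zero fun i _ => ?_
    refine ih _ _ _ fun y hy => ?_
    exact h (i :: y) (by rw [List.length_cons, hy])

/-- the point of a vertex -/
def pnt {P : Type} : P ⊕ P → P := Sum.elim id id

/-- the side of a vertex -/
def sde {P : Type} : P ⊕ P → Bool := Sum.elim (fun _ => true) (fun _ => false)

theorem wq_of_wk {A D t : ℕ} (M : Fin t → Fin D → Matrix (Fin A) (Fin A) (ZMod 2))
    (s : Fin D → Equiv.Perm (Pt (Fin t × Fin A))) (hs : ∀ i z, s i z = sM M i z)
    (hstp : ∀ i z, Stp (xM M) i (sq z) (sq (sM M i z)))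
    (v w : Pt (Fin t × Fin A) ⊕ Pt (Fin t × Fin A)) (L : List (Fin D)) (h : Wk s v w L) :
    Wq (xM M) (sde v) (sq (pnt v)) (sq (pnt w)) L := by
  induction h with
  | nil v => exact Wq.nil _ _
  | cons v w i L _ ih =>
    cases v with
    | inl p =>
      refine Wq.up (sq p) (sq (s i p)) _ i L ?_ ih
      rw [hs]
      exact hstp i p
    | inr l =>
      refine Wq.dn (sq l) (sq ((s i).symm l)) _ i L ?_ ih
      have h1 := hstp i ((s i).symm l)
      rw [← hs, Equiv.apply_symm_apply] at h1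
      exact h1

theorem gra (trl : TRLStmt) (mg1 : MG1Stmt) (mg2 : MG2Stmt) (mg4 : MG4Stmt) (smb : SMBStmt) :
    GRAStmt := by
  intro A D t hA hlt
  obtain ⟨M, hM⟩ := mg4 A D t (fun _ => 1) (by
    intro h
    have := congrFun h ⟨0, hA⟩
    exact one_ne_zero this) hlt
  refine ⟨⟨fun i => Equiv.ofBijective (sM M i) (smb A D t M i).2.1, fun i j => ?_, ?_⟩⟩
  · exact (smb A D t M i).2.2 j
  · intro Z hZ hb
    by_contra hne
    obtain ⟨p, L, hL0, hLZ, hch, hwk⟩ := trl _ D _ Z hne hb
    have hwq := wq_of_wk M _ (fun i z => rfl) (fun i z => (smb A D t M i).1 z) _ _ L hwk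
    change Wq (xM M) true (sq p) (sq p) L at hwq
    have h1 := mg1 D true L hch
    have hex : ∃ d, 1 ≤ d ∧ ∃ y : List (Fin D), y.length = d ∧ mg true L y ≠ 0 :=
      ⟨L.length, List.length_pos_iff.2 hL0, L, rfl, by rw [h1.1]; exact one_ne_zero⟩
    classical
    obtain ⟨hd1, hdy⟩ := Nat.find_spec hex
    have hmin : ∀ e, e < Nat.find hex → 1 ≤ e → ∀ y : List (Fin D), y.length = e →
        mg true L y = 0 := by
      intro e he he1 y hy
      by_contra hc
      exact Nat.find_min hex he ⟨he1, y, hy, hc⟩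
    have hdL : Nat.find hex ≤ L.length :=
      Nat.find_min' hex ⟨List.length_pos_iff.2 hL0, L, rfl, by rw [h1.1]; exact one_ne_zero⟩
    obtain ⟨d, hd⟩ : ∃ d, d = Nat.find hex := ⟨_, rfl⟩
    rw [← hd] at hd1 hdy hmin hdL
    have h2 := mg2 A D (xM M) true (sq p) (sq p) L hwq d
    rw [Finset.sum_range_succ, Nat.sub_self] at h2
    have h3 : evl (xM M) (mg true L) d 0 (sq p d) = sq p d := by
      rw [evl, h1.2, one_smul]
    rw [h3] at h2
    have h4 : ∑ r ∈ range d, evl (xM M) (mg true L) r (d - r) (sq p r) = 0 := by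
      have h5 : ∀ a b : Fin A → ZMod 2, a = b + a → b = 0 := by
        intro a b hab
        have := congrArg (fun x => x - a) hab
        simpa using this.symm
      exact h5 _ _ h2
    obtain ⟨e, rfl⟩ : ∃ e, d = e + 1 := ⟨d - 1, by omega⟩
    rw [Finset.sum_range_succ'] at h4
    have h6 : ∑ r ∈ range e, evl (xM M) (mg true L) (r + 1) (e + 1 - (r + 1)) (sq p (r + 1)) = 0 := by
      refine Finset.sum_eq_zero fun r hr => ?_
      rw [Finset.mem_range] at hr
      exact evl_zero _ _ _ _ _ fun y hy => hmin _ (by omega) (by omega) y hy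
    rw [h6, zero_add, Nat.sub_zero] at h4
    exact hM L (by omega) (e + 1) hd1 (by omega) hdy h4

end Pool.Agent.RHO.H75c
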