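import Mathlib
import Pool.Agent.RHO.Stmts3

/-!
# MP_ca8ef3_an, stage 2, row NM1
-/

set_option autoImplicit false

namespace Pool.Agent.RHO.H75c

open Finset Pool.Agent.RHO

theorem lowA (b : ℕ) : (1 / 4 : ℝ) ≤ (1 - 1 / 2 ^ (b + 1)) ^ (2 ^ (b + 1)) := by
  induction b with
  | zero => norm_num
  | succ b ih =>
    have hx : (0 : ℝ) ≤ 1 - 1 / 2 ^ (b + 1) := by
      have h1 : (1 : ℝ) ≤ 2 ^ (b + 1) := one_le_pow₀ (by norm_num)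
      have h2 : (1 : ℝ) / 2 ^ (b + 1) ≤ 1 := by
        rw [div_le_one (by positivity)]
        exact h1
      linarith
    have h2 : (1 : ℝ) - 1 / 2 ^ (b + 1) ≤ (1 - 1 / 2 ^ (b + 1 + 1)) ^ 2 := by
      have e : (1 : ℝ) / 2 ^ (b + 1 + 1) = (1 / 2 ^ (b + 1)) / 2 := by
        rw [pow_succ (2 : ℝ) (b + 1)]
        field_simp
      rw [e]
      nlinarith [sq_nonneg ((1 : ℝ) / 2 ^ (b + 1))]
    calc (1 / 4 : ℝ) ≤ (1 - 1 / 2 ^ (b + 1)) ^ (2 ^ (b + 1)) := ih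
      _ ≤ ((1 - 1 / 2 ^ (b + 1 + 1)) ^ 2) ^ (2 ^ (b + 1)) := pow_le_pow_left₀ hx h2 _
      _ = (1 - 1 / 2 ^ (b + 1 + 1)) ^ (2 ^ (b + 1 + 1)) := by
        rw [← pow_mul, pow_succ (2 : ℕ) (b + 1), Nat.mul_comm (2 ^ (b + 1)) 2]

theorem uppB (b : ℕ) : (1 - 1 / 2 ^ (b + 1) : ℝ) ^ (2 ^ (b + 1)) ≤ 1 / 2 := by
  have h1 : (1 : ℝ) ≤ 2 ^ (b + 1) := one_le_pow₀ (by norm_num)
  have hx : (0 : ℝ) ≤ 1 - 1 / 2 ^ (b + 1) := by
    have h2 : (1 : ℝ) / 2 ^ (b + 1) ≤ 1 := by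
      rw [div_le_one (by positivity)]
      exact h1
    linarith
  have h3 : (1 - 1 / 2 ^ (b + 1) : ℝ) ≤ Real.exp (-(1 / 2 ^ (b + 1))) := by
    have := Real.add_one_le_exp (-(1 / 2 ^ (b + 1)) : ℝ)
    linarith
  have h4 : (1 - 1 / 2 ^ (b + 1) : ℝ) ^ (2 ^ (b + 1)) ≤ Real.exp (-1) := by
    calc (1 - 1 / 2 ^ (b + 1) : ℝ) ^ (2 ^ (b + 1))
        ≤ Real.exp (-(1 / 2 ^ (b + 1))) ^ (2 ^ (b + 1)) := pow_le_pow_left₀ hx h3 _
      _ = Real.exp (-1) := by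
        rw [← Real.exp_nat_mul]
        congr 1
        push_cast
        field_simp
  have h5 : Real.exp (-1) ≤ 1 / 2 := by
    rw [Real.exp_neg, inv_eq_one_div]
    have h6 : (2 : ℝ) ≤ Real.exp 1 := by
      have := Real.add_one_le_exp (1 : ℝ)
      linarith
    exact one_div_le_one_div_of_le (by norm_num) h6
  exact h4.trans h5

theorem nm1 : NM1Stmt := by
  intro a ha
  obtain ⟨b, rfl⟩ : ∃ b, a = b + 2 := ⟨a - 2, by omega⟩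
  have hm : pm (b + 2) = b + 1 := rfl
  have h2a : (2 : ℕ) ^ (b + 2) = 2 ^ (b + 1) * 2 := pow_succ 2 (b + 1)
  have hρ0 : (0 : ℝ) ≤ 1 - 1 / 2 ^ (b + 1) := by
    have h1 : (1 : ℝ) ≤ 2 ^ (b + 1) := one_le_pow₀ (by norm_num)
    have h2 : (1 : ℝ) / 2 ^ (b + 1) ≤ 1 := by
      rw [div_le_one (by positivity)]
      exact h1
    linarith
  refine ⟨?_, ?_, ?_⟩
  · rw [hm]
    unfold rr
    congr 1
    push_cast
    rw [pow_succ (2 : ℝ) (b + 1)]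
    field_simp
  · rw [hm]
    obtain ⟨n, hn⟩ : ∃ n, n = 32 * b + 168 := ⟨_, rfl⟩
    obtain ⟨w, hw⟩ : ∃ w, w = 16 * b + 84 := ⟨_, rfl⟩
    obtain ⟨x, hx⟩ : ∃ x, x = 19 * b + 98 := ⟨_, rfl⟩
    obtain ⟨y, hy⟩ : ∃ y, y = 7 * b + 29 := ⟨_, rfl⟩
    have hnw : n = 2 * w := by omega
    have e1 : pt (b + 2) = 2 ^ (b + 1) * w := by
      unfold pt
      rw [h2a, hw]
      ring
    have l1 : (1 / 2 : ℝ) ^ n ≤ (1 - 1 / 2 ^ (b + 1)) ^ pt (b + 2) := by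
      rw [e1, pow_mul]
      calc (1 / 2 : ℝ) ^ n = (1 / 4) ^ w := by
            rw [hnw, pow_mul]
            norm_num
        _ ≤ _ := pow_le_pow_left₀ (by norm_num) (lowA b) _
    have e2' : pk (b + 2) = (b + 1) + (x + 1) := by
      unfold pk
      omega
    have e2 : (2 : ℕ) ^ pk (b + 2) = 2 ^ (b + 1) * 2 ^ (x + 1) := by
      rw [e2']
      exact pow_add 2 (b + 1) (x + 1)
    have hb : n + 2 ≤ 2 ^ (x + 1) := by
      have h3 : x < 2 ^ x := Nat.lt_two_pow_self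
      have h4 : 2 ^ (x + 1) = 2 ^ x * 2 := pow_succ 2 x
      omega
    have l2 : (1 - 1 / 2 ^ (b + 1) : ℝ) ^ (2 ^ pk (b + 2)) ≤ (1 / 2) ^ (n + 2) := by
      rw [e2, pow_mul]
      calc ((1 - 1 / 2 ^ (b + 1) : ℝ) ^ (2 ^ (b + 1))) ^ (2 ^ (x + 1))
          ≤ (1 / 2) ^ (2 ^ (x + 1)) := pow_le_pow_left₀ (pow_nonneg hρ0 _) (uppB b) _
        _ ≤ (1 / 2) ^ (n + 2) := pow_le_pow_of_le_one (by norm_num) (by norm_num) hb
    have l3 : ((b + 1 : ℕ) : ℝ) / 2 ^ (2 * pk (b + 2)) ≤ (1 / 2) ^ (n + 2) := by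
      have h5 : ((b + 1 : ℕ) : ℝ) ≤ 2 ^ (b + 1) := by
        have : b + 1 < 2 ^ (b + 1) := Nat.lt_two_pow_self
        exact_mod_cast this.le
      have e3' : 2 * pk (b + 2) = (b + 1) + ((n + 2) + y) := by
        unfold pk
        omega
      have e3 : (2 : ℝ) ^ (2 * pk (b + 2)) = 2 ^ (b + 1) * (2 ^ (n + 2) * 2 ^ y) := by
        rw [e3', pow_add 2 (b + 1) ((n + 2) + y), pow_add 2 (n + 2) y]
      have h7 : (0 : ℝ) < 2 ^ (n + 2) := pow_pos (by norm_num) _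
      have h8 : (0 : ℝ) < 2 ^ (b + 1) := pow_pos (by norm_num) _
      have h9 : (0 : ℝ) < 2 ^ y := pow_pos (by norm_num) _
      rw [e3, one_div, inv_pow, div_le_iff₀ (mul_pos h8 (mul_pos h7 h9))]
      have h6 : (1 : ℝ) ≤ 2 ^ y := one_le_pow₀ (by norm_num)
      calc ((b + 1 : ℕ) : ℝ) ≤ 2 ^ (b + 1) * 1 := by rw [mul_one]; exact h5
        _ ≤ 2 ^ (b + 1) * 2 ^ y := mul_le_mul_of_nonneg_left h6 h8.le
        _ = (2 ^ (n + 2))⁻¹ * (2 ^ (b + 1) * (2 ^ (n + 2) * 2 ^ y)) := by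
          rw [← mul_assoc, ← mul_assoc, mul_comm ((2 : ℝ) ^ (n + 2))⁻¹, mul_assoc (2 ^ (b + 1)),
            inv_mul_cancel₀ h7.ne', mul_one]
    have l4 : (1 / 2 : ℝ) ^ (n + 2) + (1 / 2) ^ (n + 2) < (1 / 2) ^ n := by
      have h10 : (0 : ℝ) < (1 / 2) ^ n := pow_pos (by norm_num) _
      rw [pow_add (1 / 2 : ℝ) n 2]
      nlinarith
    calc ((b + 1 : ℕ) : ℝ) / 2 ^ (2 * pk (b + 2)) + (1 - 1 / 2 ^ (b + 1)) ^ (2 ^ pk (b + 2))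
        ≤ (1 / 2) ^ (n + 2) + (1 / 2) ^ (n + 2) := add_le_add l3 l2
      _ < (1 / 2) ^ n := l4
      _ ≤ _ := l1
  · rw [hm]
    obtain ⟨n, hn⟩ : ∃ n, n = 14 * b + 70 := ⟨_, rfl⟩
    have e1 : pt (b + 2) - 2 ^ (b + 2) * (b + 2 + 5) = 2 ^ (b + 1) * n := by
      unfold pt
      rw [← Nat.mul_sub, h2a, Nat.mul_assoc]
      congr 1
      omega
    have hle : 42 + 13 * (b + 2) ≤ n := by omega
    rw [e1, pow_mul]
    calc ((1 - 1 / 2 ^ (b + 1) : ℝ) ^ (2 ^ (b + 1))) ^ n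
        ≤ (1 / 2) ^ n := pow_le_pow_left₀ (pow_nonneg hρ0 _) (uppB b) _
      _ ≤ (1 / 2) ^ (42 + 13 * (b + 2)) :=
        pow_le_pow_of_le_one (by norm_num) (by norm_num) hle
      _ = 1 / 2 ^ (42 + 13 * (b + 2)) := by
        rw [one_div, inv_pow, one_div]

end Pool.Agent.RHO.H75c
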